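import Pool.Agent.AT.Geo2

set_option autoImplicit false
open MeasureTheory Matrix Topology

namespace Pool.Agent.Helper539.AT

open Pool.Agent.AT

theorem box_compact (R : ℝ) : IsCompact {A : Mat | ∀ i j, |A i j| ≤ R} := by
  have hK : IsCompact (Set.pi Set.univ (fun _ : Fin 4 => Set.pi Set.univ
      (fun _ : Fin 4 => Set.Icc (-R) R)) : Set (Fin 4 → Fin 4 → ℝ)) :=
    isCompact_univ_pi (fun _ => isCompact_univ_pi (fun _ => isCompact_Icc))
  have : {A : Mat | ∀ i j, |A i j| ≤ R} =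
      (Set.pi Set.univ (fun _ : Fin 4 => Set.pi Set.univ
      (fun _ : Fin 4 => Set.Icc (-R) R)) : Set (Fin 4 → Fin 4 → ℝ)) := by
    ext A
    constructor
    · intro h i _ j _
      exact abs_le.mp (h i j)
    · intro h i j
      exact abs_le.mpr (h i trivial j trivial)
  rw [this]
  exact hK

/-- a discrete group of Lorentz matrices has finitely many elements of bounded size -/
theorem finBalls_of_discrete {Γ : Type} [Group Γ] (a : Γ →* G) (ha : Function.Injective a)
    (hd : DiscreteTopology (Set.range (fun γ : Γ => (a γ).mat))) : FinBalls a := by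
  intro R
  have hdis : DiscreteTopology a.range := by
    have hf : Continuous (fun x : a.range =>
        (⟨G.mat x.1, by
          obtain ⟨γ, hγ⟩ := x.2
          exact ⟨γ, by simp only [hγ]⟩⟩ : Set.range (fun γ : Γ => (a γ).mat))) := by
      refine Continuous.subtype_mk ?_ _
      exact G.continuous_mat.comp continuous_subtype_val
    refine DiscreteTopology.of_continuous_injective hf ?_
    intro x y hxy
    have h2 : G.mat x.1 = G.mat y.1 := by
      simp only [Subtype.mk.injEq] at hxy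
      exact hxy
    exact Subtype.ext (G.mat_injective h2)
  have hcl : IsClosed (a.range : Set G) := Subgroup.isClosed_of_discrete
  have hcl2 : IsClosed (G.mat '' (a.range : Set G)) :=
    G.isClosedEmbedding.isClosedMap _ hcl
  have hset : G.mat '' (a.range : Set G) = Set.range (fun γ : Γ => (a γ).mat) := by
    ext A
    constructor
    · rintro ⟨g, ⟨γ, rfl⟩, rfl⟩
      exact ⟨γ, rfl⟩
    · rintro ⟨γ, rfl⟩
      exact ⟨a γ, ⟨γ, rfl⟩, rfl⟩
  rw [hset] at hcl2
  have hcomp : IsCompact (Set.range (fun γ : Γ => (a γ).mat) ∩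
      {A : Mat | ∀ i j, |A i j| ≤ R}) :=
    (box_compact R).inter_left hcl2
  have hfin : (Set.range (fun γ : Γ => (a γ).mat) ∩ {A : Mat | ∀ i j, |A i j| ≤ R}).Finite := by
    refine hcomp.finite ?_
    have h1 : IsDiscrete (Set.range (fun γ : Γ => (a γ).mat)) := ⟨hd⟩
    exact h1.mono Set.inter_subset_left
  have hinj : Function.Injective (fun γ : Γ => (a γ).mat) :=
    fun x y h => ha (G.mat_injective h)
  refine (hfin.preimage (f := fun γ : Γ => (a γ).mat) hinj.injOn).subset ?_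
  intro γ hγ
  exact ⟨⟨γ, rfl⟩, hγ⟩

theorem incl_injective (H : Subgroup (Matrix (Fin 4) (Fin 4) ℝ)ˣ)
    (hH : ∀ g ∈ H,
      Matrix.transpose (g : Matrix (Fin 4) (Fin 4) ℝ) * Matrix.diagonal (![1, 1, 1, -1] : Fin 4 → ℝ)
          * (g : Matrix (Fin 4) (Fin 4) ℝ) = Matrix.diagonal (![1, 1, 1, -1] : Fin 4 → ℝ)
        ∧ 0 < (g : Matrix (Fin 4) (Fin 4) ℝ) 3 3) : Function.Injective (incl H hH) := by
  intro x y h
  apply Subtype.ext
  apply Units.ext
  exact congrArg G.mat h

/-- MODULE F2 -/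
theorem stF2 : StF2 := by
  intro H hH hd
  refine ⟨incl_injective H hH, ?_⟩
  refine finBalls_of_discrete _ (incl_injective H hH) ?_
  have hset : Set.range (fun γ : H => (incl H hH γ).mat) =
      ((fun g : (Matrix (Fin 4) (Fin 4) ℝ)ˣ => (g : Matrix (Fin 4) (Fin 4) ℝ)) ''
        (H : Set (Matrix (Fin 4) (Fin 4) ℝ)ˣ)) := by
    ext A
    constructor
    · rintro ⟨γ, rfl⟩
      exact ⟨γ.1, γ.2, rfl⟩
    · rintro ⟨g, hg, rfl⟩
      exact ⟨⟨g, hg⟩, rfl⟩
  rw [hset]
  exact hd

/-- MODULE F3 from T1, T2 -/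
theorem stF3 (h1 : StT1) (h2 : StT2) : StF3 := by
  intro R
  choose z hz using h2
  have hfin : ({f : Fin 4 → Fin 4 → ℤ | ∀ i, f i ∈ {u : Fin 4 → ℤ | ∀ j, u j ∈
      Set.Icc (-⌈R⌉) ⌈R⌉}}).Finite :=
    Set.Finite.pi' (fun _ => Set.Finite.pi' (fun _ => Set.finite_Icc _ _))
  have hinj : Function.Injective z := by
    intro x y h
    apply h1
    apply G.ext
    ext i j
    rw [hz, hz, h]
  refine (hfin.preimage (f := z) hinj.injOn).subset ?_
  intro γ hγ i j
  have h := hγ i j
  rw [hz] at h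
  have h2 := abs_le.mp h
  have h3 : R ≤ (⌈R⌉ : ℝ) := Int.le_ceil _
  refine ⟨?_, ?_⟩
  · have : (-(⌈R⌉ : ℝ)) ≤ (z γ i j : ℝ) := by linarith [h2.1]
    exact_mod_cast this
  · have : (z γ i j : ℝ) ≤ (⌈R⌉ : ℝ) := by linarith [h2.2]
    exact_mod_cast this

end Pool.Agent.Helper539.AT
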